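import Pool.Agent.Helper50.BP.St

/-!
# Project BP (MP_b3ce06_al): module DE (parameters, `v` of order `2 ^ a`)
-/

set_option autoImplicit false

namespace Pool.Agent.Helper32.BP

open Pool.Agent.Helper43.GD Pool.Agent.Helper73.BG Pool.Agent.Helper50.BP

private theorem exists_v (p : ℕ) [Fact p.Prime] (n a : ℕ) (hn : 1 ≤ n)
    (hd : 2 ^ a ∣ p ^ n - 1) : ∃ v : (GaloisField p n)ˣ, orderOf v = 2 ^ a := by
  have hp : p.Prime := Fact.out
  have hcard : Nat.card (GaloisField p n)ˣ = p ^ n - 1 := by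
    rw [Nat.card_units, GaloisField.card p n (by omega)]
  have hN : p ^ n - 1 ≠ 0 := by
    have : 1 < p ^ n := Nat.one_lt_pow (by omega) hp.one_lt
    omega
  obtain ⟨g, hg⟩ := IsCyclic.exists_ofOrder_eq_natCard (α := (GaloisField p n)ˣ)
  rw [hcard] at hg
  obtain ⟨c, hc⟩ := hd
  have hc0 : c ≠ 0 := by
    rintro rfl
    exact hN (by rw [hc, mul_zero])
  refine ⟨g ^ c, ?_⟩
  rw [orderOf_pow_of_dvd hc0 (by rw [hg, hc]; exact dvd_mul_left _ _), hg, hc]
  exact Nat.mul_div_cancel _ (Nat.pos_of_ne_zero hc0)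

theorem hDE (h1 : StGNV) (h2 : StXK) (h3 : StCP) : StDE := by
  intro p _ n a hn ha hd hnd hmin
  have hp : p.Prime := Fact.out
  have hcard : Nat.card (GaloisField p n)ˣ = p ^ n - 1 := by
    rw [Nat.card_units, GaloisField.card p n (by omega)]
  have hpn : 1 < p ^ n := Nat.one_lt_pow (by omega) hp.one_lt
  have h2a : 2 ∣ 2 ^ a := dvd_pow_self 2 (by omega)
  have hp2 : p ≠ 2 := by
    intro h
    have h4 : 2 ∣ p ^ n - 1 := h2a.trans hd
    have h5 : 2 ∣ p ^ n := by
      rw [h]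
      exact dvd_pow_self 2 (by omega)
    omega
  have h2K : (2 : GaloisField p n) ≠ 0 := by
    intro h
    have h4 : ((2 : ℕ) : GaloisField p n) = 0 := by exact_mod_cast h
    rw [CharP.cast_eq_zero_iff (GaloisField p n) p 2] at h4
    exact hp2 ((Nat.prime_dvd_prime_iff_eq hp Nat.prime_two).1 h4)
  obtain ⟨v, hv⟩ := exists_v p n a hn hd
  have hv1 : v ≠ 1 := by
    rintro rfl
    rw [orderOf_one] at hv
    have : 1 < 2 ^ a := Nat.one_lt_pow (by omega) (by norm_num)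
    omega
  have hvd : ∀ d : ℕ, 1 ≤ d → d < n → v ^ (p ^ d - 1) ≠ 1 := by
    intro d hd1 hdn h
    exact hmin d hd1 hdn (hv ▸ orderOf_dvd_of_pow_eq_one h)
  obtain ⟨x, k, l, h, hh, hk, hl, hox, hxk, hsum, hxh, hg⟩ := h2 (GaloisField p n) h2K v hv1
  have hrk : 2 * h ∣ 2 ^ a * k := by
    rw [← hox]
    apply orderOf_dvd_of_pow_eq_one
    rw [mul_comm, pow_mul, hxk, ← hv]
    exact pow_orderOf_eq_one v
  have htwo : 2 ^ a ∣ 2 * h := by
    rw [← hv, ← hox, ← hxk]
    exact orderOf_pow_dvd k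
  have hpn' : 2 * h ∣ p ^ n - 1 := by
    rw [← hox, ← hcard]
    exact orderOf_dvd_natCard x
  have hkodd : ¬ 2 ∣ k := by
    rintro ⟨k', rfl⟩
    obtain ⟨c, hc⟩ := htwo
    have hcodd : ¬ 2 ∣ c := by
      rintro ⟨c', rfl⟩
      apply hnd
      refine Dvd.dvd.trans ⟨c', ?_⟩ hpn'
      rw [hc]
      ring
    have h5 : 2 ^ a * c ∣ 2 ^ a * (2 * k') := by
      rw [← hc]
      exact hrk
    have h6 : c ∣ 2 * k' := Nat.dvd_of_mul_dvd_mul_left (by positivity) h5
    have h7 : c ∣ k' := by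
      have hcop : Nat.Coprime c 2 := by
        rw [Nat.coprime_comm]
        exact (Nat.Prime.coprime_iff_not_dvd Nat.prime_two).2 hcodd
      exact hcop.dvd_of_dvd_mul_left h6
    have h8 : orderOf x ∣ (2 * k') * 2 ^ (a - 1) := by
      rw [hox, hc]
      obtain ⟨e, rfl⟩ := h7
      refine ⟨e, ?_⟩
      have h9 : 2 ^ a = 2 * 2 ^ (a - 1) := by
        rw [← pow_succ']
        congr 1
        omega
      rw [h9]
      ring
    have h9 : v ^ 2 ^ (a - 1) = 1 := by
      rw [← hxk, ← pow_mul]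
      exact orderOf_dvd_iff_pow_eq_one.1 h8
    have h10 : 2 ^ a ∣ 2 ^ (a - 1) := by
      rw [← hv]
      exact orderOf_dvd_of_pow_eq_one h9
    have h11 : 2 ^ (a - 1) < 2 ^ a := Nat.pow_lt_pow_right (by norm_num) (by omega)
    exact absurd (Nat.le_of_dvd (by positivity) h10) (by omega)
  have h8a : 8 ∣ 2 ^ a := by
    have : (8 : ℕ) = 2 ^ 3 := by norm_num
    rw [this]
    exact pow_dvd_pow 2 ha
  have hheven : 2 ∣ h := by
    have := h8a.trans htwo
    omega
  obtain ⟨j, hcop, hgj⟩ := h3 l k h hh hg (by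
    intro s hs hs2 hskl hs3
    by_cases hs' : s = 2
    · subst hs'
      omega
    · have hcs : Nat.Coprime s 2 := (Nat.coprime_primes hs Nat.prime_two).2 hs'
      have hsh : s ∣ h := hcs.dvd_of_dvd_mul_left hs2
      have hsk : s ∣ k := by
        have h5 : s ∣ 2 ^ a * k := hs2.trans hrk
        exact (Nat.Coprime.pow_right a hcs).dvd_of_dvd_mul_left h5
      have hsl : s ∣ l := (Nat.dvd_add_right hsk).1 hskl
      have h6 : s ∣ Nat.gcd (Nat.gcd k l) h := Nat.dvd_gcd (Nat.dvd_gcd hsk hsl) hsh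
      rw [hg] at h6
      exact hs.one_lt.ne' (Nat.dvd_one.1 h6))
  have hx2h : (x : GaloisField p n) ^ (2 * h) = 1 := by
    have h5 : x ^ (2 * h) = 1 := by
      rw [← hox]
      exact pow_orderOf_eq_one x
    have h6 := congrArg (fun y : (GaloisField p n)ˣ => (y : GaloisField p n)) h5
    simpa using h6
  refine ⟨l + 2 * h * j, k, h, ⟨hh, ha, htwo, hrk, by omega, hgj, hcop⟩, x, hxh, ?_, ?_⟩
  · rw [pow_add, pow_mul, hx2h, one_pow, mul_one]
    exact hsum
  · exact h1 p n hn v x k hxk hvd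

end Pool.Agent.Helper32.BP
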